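import Pool.Agent.Helper87.HD.Stmts

/-!
EQ2: in the second case of equality the map `lin X` sends unitary matrices to maximisers (polarization with signs).
-/

set_option autoImplicit false

open Finset

namespace HD

/-- the sign sum of the polarization identity -/
theorem eq2_sign {n : ℕ} (f : Fin n → Fin n) [Decidable (Function.Bijective f)] :
    ∑ ε : Fin n → ℤˣ, (∏ i, ((ε i : ℤ) : ℂ)) * (∏ k, ((ε (f k) : ℤ) : ℂ)) =
      if Function.Bijective f then (2 : ℂ) ^ n else 0 := by
  classical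
  split_ifs with hf
  · have h1 : ∀ ε : Fin n → ℤˣ, (∏ i, ((ε i : ℤ) : ℂ)) * (∏ k, ((ε (f k) : ℤ) : ℂ)) = 1 := by
      intro ε
      rw [hf.prod_comp (fun i => ((ε i : ℤ) : ℂ)), ← Finset.prod_mul_distrib]
      refine Finset.prod_eq_one fun i _ => ?_
      rcases Int.units_eq_one_or (ε i) with h | h <;> simp [h]
    rw [Finset.sum_congr rfl fun ε _ => h1 ε]
    simp [Fintype.card_units_int]
  · have h2 : ∃ i0, ∀ k, f k ≠ i0 := by
      by_contra hc
      push Not at hc
      exact hf (Finite.injective_iff_bijective.mp (Finite.injective_iff_surjective.mpr hc))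
    obtain ⟨i0, hi0⟩ := h2
    refine Finset.sum_involution (fun ε _ => Function.update ε i0 (-ε i0)) ?_ ?_ ?_ ?_
    · intro ε _
      have e1 : ∏ k, ((Function.update ε i0 (-ε i0) (f k) : ℤ) : ℂ) = ∏ k, ((ε (f k) : ℤ) : ℂ) :=
        Finset.prod_congr rfl fun k _ => by rw [Function.update_of_ne (hi0 k)]
      have e2 : ∏ i, ((Function.update ε i0 (-ε i0) i : ℤ) : ℂ) = - ∏ i, ((ε i : ℤ) : ℂ) := by
        rw [← Finset.mul_prod_erase _ _ (Finset.mem_univ i0),
          ← Finset.mul_prod_erase _ (fun i => ((ε i : ℤ) : ℂ)) (Finset.mem_univ i0)]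
        rw [Function.update_self]
        rw [Finset.prod_congr rfl fun i hi => by
          rw [Function.update_of_ne (Finset.ne_of_mem_erase hi)]]
        push_cast
        ring
      rw [e1, e2]
      ring
    · intro ε _ _ he
      have := congrFun he i0
      rw [Function.update_self] at this
      rcases Int.units_eq_one_or (ε i0) with h | h <;> rw [h] at this <;> exact absurd this (by decide)
    · intro ε _
      exact Finset.mem_univ _
    · intro ε _
      funext i
      by_cases hi : i = i0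
      · subst hi
        simp
      · simp [Function.update_of_ne hi]

/-- polarization -/
theorem eq2_pol {V : Type} [NormedAddCommGroup V] [InnerProductSpace ℂ V] {n : ℕ}
    (Φ : MultilinearMap ℂ (fun _ : Fin n => V) ℂ) (h : SymF Φ) (v : Fin n → V) :
    ∑ ε : Fin n → ℤˣ, (∏ i, ((ε i : ℤ) : ℂ)) * Φ (fun _ => ∑ j, ((ε j : ℤ) : ℂ) • v j) =
      2 ^ n * (n.factorial : ℂ) * Φ v := by
  classical
  have h1 : ∀ ε : Fin n → ℤˣ, Φ (fun _ => ∑ j, ((ε j : ℤ) : ℂ) • v j) =
      ∑ f : Fin n → Fin n, (∏ k, ((ε (f k) : ℤ) : ℂ)) * Φ (fun k => v (f k)) := by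
    intro ε
    rw [Φ.map_sum]
    refine Finset.sum_congr rfl fun f _ => ?_
    rw [Φ.map_smul_univ, smul_eq_mul]
  simp only [h1, Finset.mul_sum]
  rw [Finset.sum_comm]
  have h2 : ∀ f : Fin n → Fin n, ∑ ε : Fin n → ℤˣ, (∏ i, ((ε i : ℤ) : ℂ)) *
      ((∏ k, ((ε (f k) : ℤ) : ℂ)) * Φ (fun k => v (f k))) =
      if Function.Bijective f then (2 : ℂ) ^ n * Φ (fun k => v (f k)) else 0 := by
    intro f
    have := eq2_sign f
    simp only [← mul_assoc, ← Finset.sum_mul]
    rw [this]
    split_ifs <;> simp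
  rw [Finset.sum_congr rfl fun f _ => h2 f, ← Finset.sum_filter]
  have h3 : ∑ f ∈ (Finset.univ : Finset (Fin n → Fin n)).filter (fun f => Function.Bijective f),
      (2 : ℂ) ^ n * Φ (fun k => v (f k)) = ∑ σ : Equiv.Perm (Fin n), (2 : ℂ) ^ n * Φ (fun k => v (σ k)) := by
    refine Finset.sum_bij (fun f hf => Equiv.ofBijective f (Finset.mem_filter.mp hf).2) (fun _ _ => Finset.mem_univ _)
      ?_ ?_ ?_
    · intro f hf g hg hfg
      exact DFunLike.coe_injective.eq_iff.mpr hfg |> fun h => by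
        simpa using congrArg (fun e : Equiv.Perm (Fin n) => (e : Fin n → Fin n)) hfg
    · intro σ _
      exact ⟨σ, Finset.mem_filter.mpr ⟨Finset.mem_univ _, σ.bijective⟩, by ext; simp⟩
    · intro f hf
      rfl
  rw [h3, Finset.sum_congr rfl fun σ _ => by rw [h σ v]]
  simp [Fintype.card_perm]
  ring

/-- the norm of `lin X N` in the second case -/
theorem eq2_norm {V : Type} [NormedAddCommGroup V] [InnerProductSpace ℂ V] {n : ℕ} (X : Fin n → Fin n → V)
    (hX : ∀ i j k l, inner ℂ (X i j) (X k l) = if i = k ∧ j = l then 1 / (n : ℂ) else 0)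
    (N : Matrix (Fin n) (Fin n) ℂ) : ‖lin X N‖ ^ 2 = (∑ i, ∑ j, ‖N i j‖ ^ 2) / n := by
  classical
  have h1 : ((‖lin X N‖ ^ 2 : ℝ) : ℂ) = (((∑ i, ∑ j, ‖N i j‖ ^ 2) / n : ℝ) : ℂ) := by
    have e := inner_self_eq_norm_sq_to_K (𝕜 := ℂ) (lin X N)
    have e2 : ((‖lin X N‖ ^ 2 : ℝ) : ℂ) = inner ℂ (lin X N) (lin X N) := by
      rw [e]; push_cast; rfl
    rw [e2]
    unfold lin
    simp only [sum_inner, inner_sum, inner_smul_left, inner_smul_right, hX]
    push_cast
    rw [Finset.sum_div]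
    refine Finset.sum_congr rfl fun i _ => ?_
    rw [Finset.sum_div]
    refine Finset.sum_congr rfl fun j _ => ?_
    rw [Finset.sum_eq_single i, Finset.sum_eq_single j]
    · rw [if_pos ⟨rfl, rfl⟩, ← Complex.conj_mul']
      ring
    · intro l _ hl
      rw [if_neg fun hc => hl hc.2]
      ring
    · intro hc; exact absurd (Finset.mem_univ _) hc
    · intro k _ hk
      refine Finset.sum_eq_zero fun l _ => ?_
      rw [if_neg fun hc => hk hc.1]
      ring
    · intro hc; exact absurd (Finset.mem_univ _) hc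
  exact_mod_cast h1

/-- the diagonal case -/
theorem eq2_diag {V : Type} [NormedAddCommGroup V] [InnerProductSpace ℂ V] {n : ℕ} (hn : 1 ≤ n)
    (Φ : MultilinearMap ℂ (fun _ : Fin n => V) ℂ) (h : SymF Φ) (hu : UnitF Φ) (Y : Fin n → Fin n → V)
    (hY : ∀ i j k l, inner ℂ (Y i j) (Y k l) = if i = k ∧ j = l then 1 / (n : ℂ) else 0)
    (hd : ‖fdet Φ Y‖ = 1) : ‖Φ (fun _ => ∑ i, Y i i)‖ = 1 := by
  classical
  have hn0 : (0 : ℝ) < n := by exact_mod_cast hn
  have hf0 : (0 : ℝ) < n.factorial := by exact_mod_cast Nat.factorial_pos n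
  -- norms of signed sums
  have nrm : ∀ (σ : Equiv.Perm (Fin n)) (ε : Fin n → ℤˣ), ‖∑ j, ((ε j : ℤ) : ℂ) • Y j (σ j)‖ = 1 := by
    intro σ ε
    have e1 : ∑ j, ((ε j : ℤ) : ℂ) • Y j (σ j) = lin Y (fun i j => if j = σ i then ((ε i : ℤ) : ℂ) else 0) := by
      unfold lin
      refine Finset.sum_congr rfl fun i _ => ?_
      simp
    have e2 := eq2_norm Y hY (fun i j => if j = σ i then ((ε i : ℤ) : ℂ) else 0)
    have e3 : (∑ i, ∑ j, ‖(if j = σ i then ((ε i : ℤ) : ℂ) else 0)‖ ^ 2) = (n : ℝ) := by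
      have : ∀ i : Fin n, ∑ j, ‖(if j = σ i then ((ε i : ℤ) : ℂ) else 0)‖ ^ 2 = (1 : ℝ) := by
        intro i
        rw [Finset.sum_eq_single (σ i)]
        · rcases Int.units_eq_one_or (ε i) with h | h <;> simp [h]
        · intro j _ hj; simp [hj]
        · intro hc; exact absurd (Finset.mem_univ _) hc
      rw [Finset.sum_congr rfl fun i _ => this i]
      simp
    rw [e1]
    rw [e3, div_self hn0.ne'] at e2
    exact (pow_eq_one_iff_of_nonneg (norm_nonneg _) two_ne_zero).mp e2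
  have ph : ∀ (σ : Equiv.Perm (Fin n)) (ε : Fin n → ℤˣ), ‖Φ (fun _ => ∑ j, ((ε j : ℤ) : ℂ) • Y j (σ j))‖ ≤ 1 := by
    intro σ ε
    refine (hu _).trans ?_
    rw [nrm σ ε, one_pow]
  have sg : ∀ ε : Fin n → ℤˣ, ‖∏ i, ((ε i : ℤ) : ℂ)‖ = 1 := by
    intro ε
    rw [norm_prod]
    refine Finset.prod_eq_one fun i _ => ?_
    rcases Int.units_eq_one_or (ε i) with h | h <;> simp [h]
  -- the polarization bound
  have bd : ∀ σ : Equiv.Perm (Fin n), 2 ^ n * (n.factorial : ℝ) * ‖Φ (fun i => Y i (σ i))‖ ≤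
      ∑ ε : Fin n → ℤˣ, ‖Φ (fun _ => ∑ j, ((ε j : ℤ) : ℂ) • Y j (σ j))‖ := by
    intro σ
    have e := eq2_pol Φ h (fun i => Y i (σ i))
    have e' := congrArg norm e
    rw [norm_mul, norm_mul, norm_pow] at e'
    simp only [RCLike.norm_natCast, Complex.norm_ofNat] at e'
    rw [← e']
    refine (norm_sum_le _ _).trans (le_of_eq ?_)
    refine Finset.sum_congr rfl fun ε _ => ?_
    rw [norm_mul, sg, one_mul]
  have card : ∑ _ε : Fin n → ℤˣ, (1 : ℝ) = 2 ^ n := by
    simp [Fintype.card_units_int]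
  have b1 : ∀ σ : Equiv.Perm (Fin n), (n.factorial : ℝ) * ‖Φ (fun i => Y i (σ i))‖ ≤ 1 := by
    intro σ
    have := (bd σ).trans (Finset.sum_le_sum fun ε _ => ph σ ε)
    rw [card] at this
    have h2 : (0 : ℝ) < 2 ^ n := by positivity
    nlinarith
  by_contra hne
  have hlt : ‖Φ (fun _ => ∑ i, Y i i)‖ < 1 := by
    refine lt_of_le_of_ne ?_ hne
    have := ph 1 1
    simpa using this
  have b2 : (n.factorial : ℝ) * ‖Φ (fun i => Y i ((1 : Equiv.Perm (Fin n)) i))‖ < 1 := by
    have h3 : ∑ ε : Fin n → ℤˣ, ‖Φ (fun _ => ∑ j, ((ε j : ℤ) : ℂ) • Y j ((1 : Equiv.Perm (Fin n)) j))‖ <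
        ∑ _ε : Fin n → ℤˣ, (1 : ℝ) := by
      refine Finset.sum_lt_sum (fun ε _ => ph 1 ε) ⟨1, Finset.mem_univ _, ?_⟩
      simpa using hlt
    have := (bd 1).trans_lt h3
    rw [card] at this
    have h2 : (0 : ℝ) < 2 ^ n := by positivity
    nlinarith
  have s1 : ‖fdet Φ Y‖ ≤ ∑ σ : Equiv.Perm (Fin n), ‖Φ (fun i => Y i (σ i))‖ := by
    unfold fdet
    refine (norm_sum_le _ _).trans (le_of_eq ?_)
    refine Finset.sum_congr rfl fun σ _ => ?_
    rw [norm_mul]
    rcases Int.units_eq_one_or (Equiv.Perm.sign σ) with h | h <;> simp [h]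
  have s2 : ∑ σ : Equiv.Perm (Fin n), (n.factorial : ℝ) * ‖Φ (fun i => Y i (σ i))‖ <
      ∑ _σ : Equiv.Perm (Fin n), (1 : ℝ) :=
    Finset.sum_lt_sum (fun σ _ => b1 σ) ⟨1, Finset.mem_univ _, b2⟩
  rw [← Finset.mul_sum] at s2
  have s3 : ∑ _σ : Equiv.Perm (Fin n), (1 : ℝ) = n.factorial := by
    simp [Fintype.card_perm]
  rw [s3] at s2
  rw [hd] at s1
  nlinarith

/-- row mixing keeps the Gram form of the second case -/
theorem eq2_gram {V : Type} [NormedAddCommGroup V] [InnerProductSpace ℂ V] {n : ℕ} (X : Fin n → Fin n → V)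
    (hX : ∀ i j k l, inner ℂ (X i j) (X k l) = if i = k ∧ j = l then 1 / (n : ℂ) else 0)
    (A : Matrix (Fin n) (Fin n) ℂ) (hA : A ∈ Matrix.unitaryGroup (Fin n) ℂ) (i j k l : Fin n) :
    inner ℂ (∑ a, A i a • X a j) (∑ b, A k b • X b l) = if i = k ∧ j = l then 1 / (n : ℂ) else 0 := by
  classical
  simp only [sum_inner, inner_sum, inner_smul_left, inner_smul_right, hX]
  have h1 : ∀ b : Fin n, A k b * ∑ a, ((starRingEnd ℂ) (A i a) * (if a = b ∧ j = l then 1 / (n : ℂ) else 0)) =
      (if j = l then 1 / (n : ℂ) else 0) * (A k b * (starRingEnd ℂ) (A i b)) := by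
    intro b
    rw [Finset.sum_eq_single b]
    · by_cases hjl : j = l
      · simp [hjl]; ring
      · simp [hjl]
    · intro a _ hab
      rw [if_neg fun hc => hab hc.1]
      ring
    · intro hc; exact absurd (Finset.mem_univ _) hc
  rw [Finset.sum_congr rfl fun b _ => h1 b, ← Finset.mul_sum]
  have h2 : ∑ b, A k b * (starRingEnd ℂ) (A i b) = (1 : Matrix (Fin n) (Fin n) ℂ) k i := by
    rw [← Matrix.mem_unitaryGroup_iff.mp hA]
    rfl
  rw [h2, Matrix.one_apply]
  by_cases h3 : i = k <;> by_cases h4 : j = l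
  · simp [h3, h4]
  · simp [h4]
  · simp [h3, h4, Ne.symm h3]
  · simp [h4]

/-- EQ2 -/
theorem st_EQ2 (det : ST_DET) : ST_EQ2 := by
  intro V _ _ _ n Φ hn h hu X hd hX N hN
  classical
  have hn0 : (0 : ℝ) < n := by exact_mod_cast hn
  constructor
  · have e := eq2_norm X hX N
    have e2 : ∑ i, ∑ j, ‖N i j‖ ^ 2 = (n : ℝ) := by
      have : ∀ i : Fin n, ∑ j, ‖N i j‖ ^ 2 = (1 : ℝ) := by
        intro i
        have h1 := congrFun (congrFun (Matrix.mem_unitaryGroup_iff.mp hN) i) i
        rw [Matrix.one_apply_eq, Matrix.mul_apply] at h1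
        have h2 : ((∑ j, ‖N i j‖ ^ 2 : ℝ) : ℂ) = 1 := by
          rw [← h1]
          push_cast
          refine Finset.sum_congr rfl fun j _ => ?_
          rw [Matrix.star_apply, ← Complex.mul_conj']
          rfl
        exact_mod_cast h2
      rw [Finset.sum_congr rfl fun i _ => this i]
      simp
    rw [e2, div_self hn0.ne'] at e
    exact (pow_eq_one_iff_of_nonneg (norm_nonneg _) two_ne_zero).mp e
  · have hNt : N.transpose ∈ Matrix.unitaryGroup (Fin n) ℂ := by
      rw [Matrix.mem_unitaryGroup_iff]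
      have h1 := Matrix.mem_unitaryGroup_iff'.mp hN
      have h2 := congrArg Matrix.transpose h1
      rw [Matrix.transpose_mul, Matrix.transpose_one] at h2
      rw [← h2]
      congr 1
    have hmix : mix N.transpose X 1 = fun i j => ∑ k, N.transpose i k • X k j := by
      funext i j
      unfold mix
      refine Finset.sum_congr rfl fun k _ => ?_
      rw [Finset.sum_eq_single j]
      · simp
      · intro l _ hl
        rw [Matrix.one_apply_ne hl]
        simp
      · intro hc; exact absurd (Finset.mem_univ _) hc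
    have hdet : ‖fdet Φ (mix N.transpose X 1)‖ = 1 := by
      rw [((det V n Φ h).1 N.transpose 1 X), norm_mul, norm_mul, hd, Matrix.det_one]
      have : ‖N.transpose.det‖ = 1 := by
        have h1 := congrArg Matrix.det (Matrix.mem_unitaryGroup_iff.mp hNt)
        rw [Matrix.det_mul, Matrix.det_one, Matrix.star_eq_conjTranspose, Matrix.det_conjTranspose] at h1
        have h2 := congrArg norm h1
        rw [norm_mul, norm_star, norm_one] at h2
        nlinarith [norm_nonneg N.transpose.det]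
      rw [this]
      simp
    have key := eq2_diag hn Φ h hu (mix N.transpose X 1) (by
      intro i j k l
      rw [hmix]
      exact eq2_gram X hX N.transpose hNt i j k l) hdet
    have hl : ∑ i, mix N.transpose X 1 i i = lin X N := by
      rw [hmix]
      unfold lin
      rw [Finset.sum_comm]
      rfl
    rw [hl] at key
    exact key

end HD
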